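import Pool.Agent.H71.PP.Main

/-!
A Borel action of the free group of rank two on a standard Borel space whose type semigroup
does not have plain paradoxes.
-/

namespace Pool.Agent.Results.MP_cafa5e_lc.PlainParadox

open Pool.Agent.H71.PP

/-- There is a Borel action of the free group on two generators on a standard Borel space `X`
and an element `α` of the type semigroup with `n α = m α` for all `n, m ≥ 2` (so that for
instance `3 α ≤ 2 α`), while `2 α ≤ α` fails. -/
theorem result :
    ∃ (X : Type) (_ : MeasurableSpace X) (_ : StandardBorelSpace X)
      (_ : MulAction (FreeGroup Bool) X) (_ : MeasurableConstSMul (FreeGroup Bool) X)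
      (α : TypeSemigroup (FreeGroup Bool) X),
      (∀ n m : ℕ, 2 ≤ n → 2 ≤ m → n • α = m • α) ∧ ¬ (2 • α ≤ α) :=
  main

end Pool.Agent.Results.MP_cafa5e_lc.PlainParadox
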